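import Pool.Agent.Y163.MW.Asm
import Pool.Agent.Y954.MW.B1

/-!
# MP_cd312e_ag: the inertia invariants on the powers of a variety; the index law

`K` is a local field, `q` the number of elements of its residue field, `Ω` an algebraic closure of
`ℚ_ℓ`, and `T : Theory K Ω` is the `ℓ`-adic cohomology of the smooth proper varieties over `K`:
for each `X` the space `V = ⨁ H^m(X_{\bar K})`, with the action `F` of an element of the Weil group
inducing the geometric Frobenius, and with the monodromy operator `N`. `T.IsLocal q` lists the known
properties that are used: `N F = q F N`; the eigenvalues of `F` are `q`-Weil numbers of integral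
weights; Poincaré duality and hard Lefschetz (`H^m` is self-dual up to a twist); and the Künneth
formula.

* `rankMoment m` is `2 ∑ k * rank (N ^ k | H^m)`, and `totRankMoment` is the same number for the whole
  cohomology.
* `weightMoment q m` is the sum of the squares `(w - m) ^ 2` over the eigenvalues of `F` on `H^m`, `w`
  denoting the weight; `totWeightMoment q` is the sum of these numbers over all `m`.
* `inv` is the dimension of the kernel of `N` on the whole cohomology, that is the dimension of the
  space of the invariants of a sufficiently small open subgroup of the inertia group; `pred q` is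
  the number of eigenvalues of `F` of weight `m` or `m + 1` on the `H^m`. If the monodromy-weight
  conjecture holds for `X` then `inv = pred`.

The theorem: for all `m`, `rankMoment m ≤ weightMoment m`, with equality if and only if `H^m` is mw
pure of weight `m`; and `pred ≤ inv`. The monodromy-weight conjecture for `X` (in all degrees) is
equivalent to the single numerical identity `inv = pred` for `X × X`. If `N ≠ 0` then the ratio
`inv / pred` for the power `X ^ (n + 1)` tends, for `n → ∞`, to the square root of
`totWeightMoment / totRankMoment`. This limit is at least one, and it is equal to one if and only if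
the monodromy-weight conjecture holds for `X`.
-/

set_option autoImplicit false

open Module Filter Topology

universe u v w

namespace Pool.Agent.Results.MP_cd312e_ag.IndexLaw

open Pool.Agent.H914 Pool.Agent.Y143 Pool.Agent.Y163.MW

/-- **Second moments, inertia invariants of the square, and the index law.** -/
theorem result {K : Type u} [Field K] {Ω : Type w} [Field Ω] [CharZero Ω] [IsAlgClosed Ω]
    {T : Theory.{u, v, w} K Ω} {q : ℕ} (hq : 1 < q) (hT : T.IsLocal q) (X : SmVar.{u} K) :
    (∀ m, (T.H X).rankMoment m ≤ (T.H X).weightMoment q m ∧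
      ((T.H X).rankMoment m = (T.H X).weightMoment q m ↔ (T.H X).MWPure q m)) ∧
    (T.H X).pred q ≤ (T.H X).inv ∧
    ((T.H (X.prod X)).inv = (T.H (X.prod X)).pred q ↔ ∀ m, (T.H X).MWPure q m) ∧
    ((T.H X).N ≠ 0 → ∃ L : ℝ,
      Tendsto (fun n : ℕ => ((T.H (pow X n)).inv : ℝ) / ((T.H (pow X n)).pred q : ℝ)) atTop
        (𝓝 L) ∧
      L = √(((T.H X).totWeightMoment q : ℝ) / ((T.H X).totRankMoment : ℝ)) ∧
      1 ≤ L ∧ (L = 1 ↔ ∀ m, (T.H X).MWPure q m)) := by
  have hB1 : StB1.{w, v} := Pool.Agent.Y954.MW.stB1 Pool.Agent.Y141.MW.stL
  refine ⟨fun m => Coh.moment_deg hq (hT.coh X) m, Coh.pred_le_inv hB1 hq (hT.coh X),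
    square_iff hB1 hT hq X, fun hN => ⟨_, index_law hB1 hT hq X hN, rfl, ?_, ?_⟩⟩
  · have h0 : (0 : ℝ) < ((T.H X).totRankMoment : ℝ) := by
      exact_mod_cast Coh.totRank_pos hq (hT.coh X) hN
    have h1 : ((T.H X).totRankMoment : ℝ) ≤ ((T.H X).totWeightMoment q : ℝ) := by
      exact_mod_cast (Coh.moment_tot hq (hT.coh X)).1
    exact Real.one_le_sqrt.2 ((one_le_div h0).2 h1)
  · have h0 : (0 : ℝ) < ((T.H X).totRankMoment : ℝ) := by
      exact_mod_cast Coh.totRank_pos hq (hT.coh X) hN
    rw [← (Coh.moment_tot hq (hT.coh X)).2, Real.sqrt_eq_one, div_eq_one_iff_eq h0.ne']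
    constructor
    · intro h
      exact_mod_cast h.symm
    · intro h
      exact_mod_cast h.symm

end Pool.Agent.Results.MP_cd312e_ag.IndexLaw
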