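import Pool.Agent.K7.H9.ND.Geo

/-!
# MP_cd312e_ag: the monodromy-weight conjecture near a degenerate fibre

`K` is a local field, `q` the number of elements of its residue field, `Ω` an algebraic closure of
`ℚ_ℓ`, and `T : Theory K Ω` is the `ℓ`-adic cohomology of the smooth proper varieties over `K`.

Let `f : 𝒳 → C` be a proper family over a curve over `K`, smooth outside `0 ∈ C(K)` and with
semistable reduction at `0`. The cohomology `H^m` of the fibre `X_t`, for `t ∈ C(K)` close to `0`,
is the limit cohomology (nearby cohomology) `L.V` of `f` at `0`, with the monodromy operator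
`N₁ + v(t) N₂`: here `N₁` is the logarithm of the action of the inertia group of `K` on the limit
cohomology, `N₂` is the logarithm of the geometric monodromy around `0`, and `v(t)` is the valuation
of the value at `t` of a local parameter at `0` (`IsHm (L.fibre (v t)) (T.H (X t)) m`). The
weight spectral sequence of the degenerate fibre `f⁻¹(0)` gives a description of the graded pieces
`gr_a` of the monodromy filtration of `N₂`: they are the homology of complexes of sums of the
`H^j(Y)(-k)` with `j + 2 k = m + a`, for the strata `Y` of the degenerate fibre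
(`L.HasMWStrata T q m`, which also says that the monodromy-weight conjecture holds for these
`H^j(Y)`).

The theorem: **if the monodromy-weight conjecture holds for the strata of the degenerate fibre, then
it holds, in degree `m`, for all fibres `X_t` close to the degenerate one**; more precisely, for all
`t` in the disc with `v(t)` outside a finite set with at most `∑ k k dim W_(m + k)` elements, where
`W_(m + k)` is the part of weight `m + k` of the limit cohomology. No semistable model over the ring
of integers of `K`, neither for `f` nor for the strata, is used.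
-/

set_option autoImplicit false

open Module

universe u v w

namespace Pool.Agent.Results.MP_cd312e_ag.NearDegenerateFibres

open Pool.Agent.H914 Pool.Agent.Y143 Pool.Agent.Y163.MW Pool.Agent.K7.H9.ND

/-- **The monodromy-weight conjecture near a degenerate fibre**. -/
theorem result {K : Type u} [Field K] {Ω : Type w} [Field Ω] [CharZero Ω] [IsAlgClosed Ω]
    {T : Theory.{u, v, w} K Ω} {q : ℕ} (hq : 1 < q) (hT : T.IsLocal q)
    {L : Limit.{v, w} Ω} (hL : L.IsLimit q) {m : ℕ} (hS : L.HasMWStrata T q m)
    {B : Type*} (v : B → ℕ) (X : B → SmVar.{u} K)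
    (hX : ∀ t, IsHm (L.fibre (v t)) (T.H (X t)) m) :
    ∃ E : Finset ℕ, E.card ≤ L.moment q m ∧ ∀ t, v t ∉ E → (T.H (X t)).MWPure q m := by
  classical
  have hS' : L.HasPureStrata q m := by
    obtain ⟨M, hM, hD⟩ := hS
    refine ⟨M, hM, fun a => ?_⟩
    obtain ⟨D, hD, h⟩ := hD a
    exact ⟨D, hD.homologyOfPure hT.coh (by omega), h⟩
  obtain ⟨E, hE, hE'⟩ := finite_exceptions hq hL hS'
  refine ⟨E.preimage Nat.cast Nat.cast_injective.injOn, ?_, fun t ht => ?_⟩
  · refine le_trans ?_ hE
    exact Finset.card_le_card_of_injOn Nat.cast (fun n hn => Finset.mem_preimage.1 hn)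
      Nat.cast_injective.injOn
  · have h1 := hE' (v t) fun h => ht (Finset.mem_preimage.2 h)
    rw [(hX t).mwPure_iff]
    have hR : (L.fibre (v t)).IsRep q := by
      refine ⟨hL.finite, ?_, hL.weil⟩
      have key : ∀ x : L.V, (L.N₁ + (v t : Ω) • L.N₂) (L.F x) =
          (q : Ω) • L.F ((L.N₁ + (v t : Ω) • L.N₂) x) := by
        intro x
        simp only [LinearMap.add_apply, LinearMap.smul_apply, map_add, map_smul, smul_add]
        rw [hL.N₁_F, hL.N₂_F, smul_comm (v t : Ω) (q : Ω)]
      exact key
    exact (FN.pure_iff hq hR m).2 h1

end Pool.Agent.Results.MP_cd312e_ag.NearDegenerateFibres
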