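import Pool.Agent.K7.H9.ND.Multi

/-!
# MP_cd312e_ag: the monodromy-weight conjecture in families over a polydisc: one fibre suffices

`K` is a local field, `q` the number of elements of its residue field, `Ω` an algebraic closure of
`ℚ_ℓ`, and `T : Theory K Ω` is the `ℓ`-adic cohomology of the smooth proper varieties over `K`.

Let `(X_t)` be a family of smooth proper varieties over a product of `n` punctured discs over `K`
(for instance the part of a family over the complement of a divisor with normal crossings which is
close to a point of the divisor), with unipotent monodromy. The cohomology `H^m` of `X_t` is the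
limit cohomology `L.V` of the family, with the monodromy operator `N₀ + ∑ i, v_i(t) N_i`, where
`N₀` is the logarithm of the action of the inertia group of `K` on the limit cohomology, the `N_i`
are the logarithms of the geometric monodromy operators, and `v_i(t)` is the valuation of the `i`-th
coordinate of `t`.

The theorem: suppose that the monodromy-weight conjecture holds in degree `m` for one fibre (or for
one value `c` of the vector of the valuations, not necessarily an integral one, as for the fibres
over points with coordinates in finite extensions of `K`). Then it holds in degree `m` for the fibres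
`X_t` for all but few valuation vectors: for every finite set `S` of natural numbers, the number of
the vectors in `S ^ n` which are the valuation vector of some `t` for which the conjecture fails in
degree `m` is at most `d |S| ^ (n - 1)`, where `d = ∑ k k dim W_(m + k)`, `W_(m + k)` being the part
of weight `m + k` of the limit cohomology. In particular (`n = 1`) for a family over a punctured disc
there are at most `d` exceptional valuations. Hence the conjecture in degree `m` either fails for all
the fibres of the family or holds for almost all of them.
-/

set_option autoImplicit false

open Module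

universe u v w

namespace Pool.Agent.Results.MP_cd312e_ag.OneFibreSuffices

open Pool.Agent.H914 Pool.Agent.Y143 Pool.Agent.Y163.MW Pool.Agent.K7.H9.ND

/-- **One fibre suffices**: the monodromy-weight conjecture for one fibre of a family over a product
of punctured discs implies the conjecture for all but few of the fibres. -/
theorem result {K : Type u} [Field K] {Ω : Type w} [Field Ω] [CharZero Ω] [IsAlgClosed Ω]
    {T : Theory.{u, v, w} K Ω} {q : ℕ} (hq : 1 < q) {n : ℕ}
    {L : MultiLimit.{v, w} Ω n} (hL : L.IsLimit q) {m : ℕ}
    {B : Type*} (v : B → Fin n → ℕ) (X : B → SmVar.{u} K)
    (hX : ∀ t, IsHm (L.fibre fun i => (v t i : Ω)) (T.H (X t)) m)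
    (h : (∃ t, (T.H (X t)).MWPure q m) ∨ ∃ c : Fin n → Ω, (L.fibre c).Pure q m) (S : Finset ℕ) :
    Nat.card {c : Fin n → S // ∃ t, v t = (fun i => (c i : ℕ)) ∧ ¬ (T.H (X t)).MWPure q m} *
      S.card ≤ L.moment q m * S.card ^ n := by
  refine MultiLimit.few hq hL m ?_ S (P := fun c => ∃ t, v t = c ∧ ¬ (T.H (X t)).MWPure q m) ?_
  · rcases h with ⟨t, ht⟩ | h
    · exact ⟨_, (hX t).mwPure_iff.1 ht⟩
    · exact h
  · rintro c ⟨t, rfl, ht⟩ hp
    exact ht ((hX t).mwPure_iff.2 hp)

end Pool.Agent.Results.MP_cd312e_ag.OneFibreSuffices
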