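import Pool.Agent.Y163.MW.Asm

/-!
# MP_cd312e_ag: a zero-one law for the weights of the graded pieces of the monodromy filtration

`K` is a local field, `q` the number of elements of its residue field, `Ω` an algebraic closure of
`ℚ_ℓ`, and `T : Theory K Ω` is the `ℓ`-adic cohomology of the smooth proper varieties over `K`:
for each `X` the space `V = ⨁ H^m(X_{\bar K})`, with the action `F` of an element of the Weil group
inducing the geometric Frobenius, and with the monodromy operator `N`. `T.IsLocal q` lists the known
properties that are used: `N F = q F N`; the eigenvalues of `F` are `q`-Weil numbers of integral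
weights; Poincaré duality and hard Lefschetz (`H^m` is self-dual up to a twist); and the Künneth
formula.

Let `M` be the monodromy filtration of the whole cohomology of a variety. The number `right q M` is
the number of the eigenvalues of `F` on the graded pieces `M_s / M_(s - 1)` which have the weight
`m + s` predicted by the monodromy-weight conjecture (`m` is the degree).

The theorem: if the monodromy-weight conjecture holds for `X` then all eigenvalues on the graded
pieces of the monodromy filtration of all powers of `X` have the predicted weights. If it does not
hold for `X`, then the proportion of the eigenvalues with the predicted weight, on the graded pieces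
of the monodromy filtration of `X ^ (n + 1)`, tends to zero for `n → ∞`. So the conjecture holds for
`X` as soon as, for infinitely many `n`, a positive proportion of the eigenvalues on the graded
pieces for `X ^ (n + 1)` have the predicted weights.
-/

set_option autoImplicit false

open Module Filter Topology

universe u v w

namespace Pool.Agent.Results.MP_cd312e_ag.ZeroOneLaw

open Pool.Agent.H914 Pool.Agent.Y143 Pool.Agent.Y163.MW

/-- **The zero-one law**: the proportion of the Frobenius eigenvalues on the graded pieces of the
monodromy filtration of `X ^ (n + 1)` whose weight is the predicted one is equal to one for all `n`,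
or tends to zero; and if it is at least `ε > 0` for infinitely many `n`, then the
monodromy-weight conjecture holds for `X`. -/
theorem result {K : Type u} [Field K] {Ω : Type w} [Field Ω] [CharZero Ω] [IsAlgClosed Ω]
    {T : Theory.{u, v, w} K Ω} {q : ℕ} (hq : 1 < q) (hT : T.IsLocal q) (X : SmVar.{u} K)
    (M : ∀ n, ℤ → Submodule Ω (T.H (pow X n)).V)
    (hM : ∀ n, IsMonodromyFiltrationOn ⊤ (T.H (pow X n)).N (M n)) :
    ((∀ m, (T.H X).MWPure q m) →
      ∀ n, (T.H (pow X n)).right q (M n) = finrank Ω (T.H (pow X n)).V) ∧
    (¬ (∀ m, (T.H X).MWPure q m) → Tendsto (fun n : ℕ =>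
      ((T.H (pow X n)).right q (M n) : ℝ) / (finrank Ω (T.H (pow X n)).V : ℝ)) atTop (𝓝 0)) ∧
    ∀ ε : ℝ, 0 < ε → (∃ᶠ n : ℕ in atTop,
      ε ≤ ((T.H (pow X n)).right q (M n) : ℝ) / (finrank Ω (T.H (pow X n)).V : ℝ)) →
      ∀ m, (T.H X).MWPure q m := by
  obtain ⟨h1, h2⟩ := zero_one hT hq X M hM
  refine ⟨h1, h2, fun ε hε hf => ?_⟩
  by_contra hc
  have h3 := h2 hc
  have h4 := h3.eventually (gt_mem_nhds hε)
  obtain ⟨n, hn, hn'⟩ := (hf.and_eventually h4).exists
  exact absurd hn' (not_lt.2 hn)

end Pool.Agent.Results.MP_cd312e_ag.ZeroOneLaw
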